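import Pool.Agent.KSing.FinalS

/-!
One lower bound for every knot type: a connected sum of `N` nontrivial knots has at least
`n ^ (2N/3)` times more polygons than the unknot.

Let `K₁, …, K_N` be polygons of the simple cubic lattice that are not unknotted and let `K` be a
knot type which is a connected sum of them. Write `p n K` for the number of polygons with `n` edges
and knot type `K`, up to translation, and `p n 0` for the number of unknotted polygons. There is
`δ > 0` with `δ * n ^ (2N/3) * p n 0 ≤ p n K` for all large even `n`. Hence, if the asymptotic form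
of Q1 holds for the unknot and for `K`, with the same growth rate, then the exponent of `K` is at
least `α_0 + 2N/3`. For `N = 1` this says `α_K ≥ α_0 + 2/3` for every nontrivial knot type `K`.

Outline of the proof.
* Contacts. A third of the unknotted polygons `P` with `n` edges meet at least `n ^ (2/3)` vertical
  columns. Over each column there is a contact with an umbrella placed above `P`: a large unknotted
  polygon, flat below, with a long mast made of two straight columns. We choose `N` columns from a
  sparse set of columns, in at least `(c n ^ (2/3)) ^ N` ways.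
* Surgery. At the `j`-th contact the umbrella carries `K_j`, or `K_j` turned by a half turn, joined
  sideways to the left column of its mast. Near the contact a bounded number of bumps and flips of
  `P` and of the umbrella prepares a stacked join; the contacts do not disturb each other. All bumps
  and flips are realised by homeomorphisms of bounded support. The result is a connected sum of
  `K_1, …, K_N`, but for `N ≥ 2` the orientations of the summands are not controlled.
* Signs. One of the `2 ^ N` choices gives the type `K`. This is proved by induction: the first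
  summands are in place and the last umbrella is plain, which does not change the type. Lattice
  polygons are compared up to homeomorphisms that remain valid after inserting an arbitrary pattern
  in a small box on an edge. Such a pattern can be moved along the polygon, from the place where the
  last summand of `K` is joined to the mast of the last umbrella, where it is one of the two
  patterns above.
* Decoding. A cut of the result with a small knotted upper part is near one of the `N` places:
  otherwise it would be, after cutting off the `N` parts one by one, a cut of an unknotted polygon,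
  and knots do not cancel (Brown's proof of the Schoenflies theorem, for pairs). So the `N` places
  are known up to boundedly many choices, and then so are `P` and the contacts.
* The number of polygons of type `K` is monotone along even `n` (one bump at the top), and the ratio
  limit theorem for the unknot (`RatioLimit`) removes the shift of the length.
-/

set_option autoImplicit false

namespace Pool.Agent.Results.MP_aea6d5_co.KnottedTypes

open Pool.Agent.LK Pool.Agent.KTen Filter Topology

/-- The class of unknotted lattice polygons. -/
def Unknot (E : Finset (Sym2 P3)) : Prop := IsPolygon E ∧ Unknotted E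

/-- The class of lattice polygons which have the same knot type as `K` with respect to the group
`G` of homeomorphisms of space. -/
def OfType (G : Subgroup (R3 ≃ₜ R3)) (K E : Finset (Sym2 P3)) : Prop :=
  IsPolygon E ∧ ∃ φ ∈ G, φ '' body K = body E

/-- `E` and `F` have the same knot type up to mirror images. -/
def SameType (E F : Finset (Sym2 P3)) : Prop := ∃ φ : R3 ≃ₜ R3, φ '' body E = body F

/-- The reflection `(x, y, z) ↦ (y, x, z)`. -/
def swapR : R3 ≃ₜ R3 where
  toFun p := (p.2.1, p.1, p.2.2)
  invFun p := (p.2.1, p.1, p.2.2)
  left_inv _ := rfl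
  right_inv _ := rfl
  continuous_toFun := by fun_prop
  continuous_invFun := by fun_prop

/-- `L` is a polygon with vertices at the levels `1, …, h` and left of the plane `x = 0`, and it
contains the vertical edge from `(-1, 0, z)` to `(-1, 0, z + 1)`. -/
structure LeftOf (L : Finset (Sym2 P3)) (h : ℕ) (z : ℤ) : Prop where
  poly : IsPolygon L
  left : ∀ u ∈ verts L, u.1 ≤ -1
  lev : ∀ u ∈ verts L, 1 ≤ u.2.2 ∧ u.2.2 ≤ h
  edge : s((-1, 0, z), (-1, 0, z + 1)) ∈ L

/-- The columns over which `E` meets the plane `z = k + 1/2`. -/
def cross (E : Finset (Sym2 P3)) (k : ℤ) : Set (ℤ × ℤ) :=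
  {c | s((c.1, c.2, k), (c.1, c.2, k + 1)) ∈ E}

open Classical in
/-- `E` with `h` straight levels inserted at the plane `z = k + 1/2`: the part above is moved up by
`h`, and the edges across the plane are prolonged. -/
noncomputable def stretch (E : Finset (Sym2 P3)) (k : ℤ) (h : ℕ) : Finset (Sym2 P3) :=
  (E.filter fun e => ∀ u ∈ e, u.2.2 ≤ k) ∪
    ((E.filter fun e => ∀ u ∈ e, k + 1 ≤ u.2.2).image (Sym2.map fun u => u + (0, 0, (h : ℤ)))) ∪
    (E.filter fun e => ∃ a b : ℤ, e = s((a, b, k), (a, b, k + 1))).biUnion fun e =>
      (Finset.range (h + 1)).image fun i : ℕ =>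
        Sym2.map (fun u => (u.1, u.2.1, u.2.2 + (i : ℤ))) e

/-- The side join of `E` with `L`: `h` straight levels are inserted in `E` at the plane
`z = k + 1/2`, the polygon `L` is moved by `(a, k)`, so that it lies at these levels and to the left
of the column `a`, and the two vertical edges at distance one at the height `k + z`, one over `a`
and one of `L`, are replaced by two horizontal edges. -/
noncomputable def sideJoin (L : Finset (Sym2 P3)) (h : ℕ) (z : ℤ) (a : ℤ × ℤ)
    (E : Finset (Sym2 P3)) (k : ℤ) : Finset (Sym2 P3) :=
  (stretch E k h \ {s((a.1, a.2, k + z), (a.1, a.2, k + z + 1))}) ∪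
    (mapE (fun u => u + (a.1, a.2, k)) L \ {s((a.1 - 1, a.2, k + z), (a.1 - 1, a.2, k + z + 1))}) ∪
    {s((a.1 - 1, a.2, k + z), (a.1, a.2, k + z)),
      s((a.1 - 1, a.2, k + z + 1), (a.1, a.2, k + z + 1))}

/-- `R` is a connected sum of knots which have the types of the members of the list up to mirror
images: it is obtained from an unknotted polygon by successive side joins with polygons of these
types, each one at a plane `z = k + 1/2` which meets the polygon exactly in the two edges over the
columns `a` and `b`, where `a` is the left one (or the front one, if `a` and `b` have the same first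
coordinate). -/
inductive SumOf : List (Finset (Sym2 P3)) → Finset (Sym2 P3) → Prop
  | nil (R : Finset (Sym2 P3)) : IsPolygon R → Unknotted R → SumOf [] R
  | cons (l : List (Finset (Sym2 P3))) (K R L : Finset (Sym2 P3)) (h : ℕ) (z k : ℤ)
      (a b : ℤ × ℤ) : SumOf l R → SameType K L → LeftOf L h z → cross R k = {a, b} →
      (a.1 < b.1 ∨ (a.1 = b.1 ∧ a.2 < b.2)) → SumOf (K :: l) (sideJoin L h z a R k)

theorem sideJoin_eq : sideJoin = insK := rfl

theorem swapR_eq : swapR = LK.swapR := rfl

theorem leftOf_iff {L : Finset (Sym2 P3)} {h : ℕ} {z : ℤ} : LeftOf L h z ↔ KTen.LeftOf L h z :=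
  ⟨fun H => ⟨H.poly, H.left, H.lev, H.edge⟩, fun H => ⟨H.poly, H.left, H.lev, H.edge⟩⟩

theorem SumOf.tower {l : List (Finset (Sym2 P3))} {R : Finset (Sym2 P3)} (h : SumOf l R)
    (hl : ∀ K ∈ l, ¬ Unknotted K) : Tower l.length R := by
  induction h with
  | nil R h1 h2 => exact Tower.zero R h1 h2
  | cons l K R L h z k a b _ h1 h2 h3 h4 ih =>
    rw [sideJoin_eq]
    exact Tower.succ l.length R L h z k a b (ih fun K' hK' => hl K' (List.mem_cons_of_mem _ hK'))
      (leftOf_iff.1 h2) (fun hu => hl K List.mem_cons_self (LK.SameType.unknotted h1 hu)) h3 h4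

theorem exists_sumOf (l : List (Finset (Sym2 P3))) (hl : ∀ K ∈ l, IsPolygon K) :
    ∃ R, IsPolygon R ∧ SumOf l R ∧ cross R 0 = {(0, 0), (1, 0)} := by
  induction l with
  | nil =>
    have hab : ((0, 0) : ℤ × ℤ) ≠ (1, 0) := by decide
    obtain ⟨E, hE, uE, hc⟩ := exists_unknot_two hab 0
    exact ⟨E, hE, SumOf.nil E hE uE, hc⟩
  | cons K l ih =>
    obtain ⟨R, hR, hs, hc⟩ := ih fun K' hK' => hl K' (List.mem_cons_of_mem _ hK')
    obtain ⟨L, h, z, hT, hL⟩ := exists_leftOf (hl K List.mem_cons_self)
    have hlex : Lex (0, 0) (1, 0) := Or.inl (by norm_num)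
    refine ⟨sideJoin L h z (0, 0) R 0, insK_poly hL hR hc hlex,
      SumOf.cons l K R L h z 0 (0, 0) (1, 0) hs hT (leftOf_iff.2 hL) hc hlex, ?_⟩
    exact ((insK_cross hL hR hc hlex).1 0 le_rfl).trans hc

theorem sumOf_one {K : Finset (Sym2 P3)} (hK : IsPolygon K) :
    ∃ R, SumOf [K] R ∧ SameType K R := by
  obtain ⟨L, h, z, hT, hL⟩ := exists_leftOf hK
  have hab : ((0, 0) : ℤ × ℤ) ≠ (1, 0) := by decide
  obtain ⟨E, hE, uE, hc⟩ := exists_unknot_two hab 0
  have hlex : Lex (0, 0) (1, 0) := Or.inl (by norm_num)
  exact ⟨sideJoin L h z (0, 0) E 0, SumOf.cons [] K E L h z 0 (0, 0) (1, 0) (SumOf.nil E hE uE) hT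
    (leftOf_iff.2 hL) hc hlex, hT.trans (insK_type hL hE hc hlex uE)⟩

/-- Let `G` be a group of homeomorphisms of space such that each homeomorphism `φ` lies in `G` or
`φ ∘ swapR` lies in `G`, where `swapR` is the reflection `(x, y, z) ↦ (y, x, z)` (for example all
homeomorphisms, or the orientation preserving ones). Let `l` be a list of `N` lattice polygons none
of which is unknotted. There are connected sums of the members of `l`, and for every polygon `K`
which has the type of one of them (up to mirror images)

* there is `δ > 0` such that for all large even `n` there are unknotted polygons with `n` edges, and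
  at least `δ * n ^ (2N/3)` times as many polygons with `n` edges of the type of `K` with respect
  to `G`;
* if both numbers divided by `n ^ (α - 3) * μ ^ n` and `n ^ (β - 3) * μ ^ n` converge along even
  `n`, the first one to a positive limit, where `μ` is the common growth rate, then
  `α + 2N/3 ≤ β`.

Every polygon `K` has the type of a connected sum of the list with the single member `K`. So for
every knotted `K` the above holds with `N = 1`. -/
theorem result (G : Subgroup (R3 ≃ₜ R3)) (hG : ∀ φ : R3 ≃ₜ R3, φ ∈ G ∨ φ * swapR ∈ G)
    (l : List (Finset (Sym2 P3))) (hl : ∀ K ∈ l, IsPolygon K ∧ ¬ Unknotted K) :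
    (∃ R, IsPolygon R ∧ SumOf l R) ∧
    (∀ K R : Finset (Sym2 P3), IsPolygon K → SumOf l R → SameType K R →
      (∃ δ : ℝ, 0 < δ ∧ ∀ᶠ n : ℕ in atTop, Even n → 0 < count Unknot n ∧
        δ * (n : ℝ) ^ (2 * (l.length : ℝ) / 3) * (count Unknot n : ℝ) ≤
          (count (OfType G K) n : ℝ)) ∧
      (∀ A B α β : ℝ, 0 < A → growth (OfType G K) = growth Unknot →
        Tendsto (fun k : ℕ => (count Unknot (2 * k) : ℝ) /
          (((2 * k : ℕ) : ℝ) ^ (α - 3) * growth Unknot ^ (2 * k))) atTop (𝓝 A) →
        Tendsto (fun k : ℕ => (count (OfType G K) (2 * k) : ℝ) /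
          (((2 * k : ℕ) : ℝ) ^ (β - 3) * growth (OfType G K) ^ (2 * k))) atTop (𝓝 B) →
        α + 2 * (l.length : ℝ) / 3 ≤ β)) ∧
    ∀ K : Finset (Sym2 P3), IsPolygon K → ∃ R, SumOf [K] R ∧ SameType K R := by
  refine ⟨?_, fun K R _ hR hK => ?_, fun K hK => sumOf_one hK⟩
  · obtain ⟨R, hR, hs, -⟩ := exists_sumOf l fun K hK => (hl K hK).1
    exact ⟨R, hR, hs⟩
  · exact KSing.tower_strong G hG (hR.tower fun K hK => (hl K hK).2) hK

end Pool.Agent.Results.MP_aea6d5_co.KnottedTypes
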