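import Pool.Agent.KSlab.YMain
import Pool.Agent.KSlab.ZReal
import Pool.Agent.KTen.FinalT

/-!
Stretched lattice knots in slabs: the form of Q1 holds for every knot type.

Polygons of the simple cubic lattice in the slab `ℤ × {0, …, M} × ℤ` with `n` edges, up to the
translations of the slab, where a polygon has the weight `y ^ span` and the span is its extension in
the `z`-direction (polygons in a slab under a stretching force). `ZS (OfType G K) M y n` is the sum
of the weights of the polygons of knot type `K`.

Outline of the proof.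
* A section (plane `z = k + 1/2`) with two edges cuts a polygon into two parts. A polygon is a chain
  of blocks between consecutive sections with two edges, and two caps. Its state at such a section
  is the displacement of the two strands in the `x`-direction and their two heights. If the strands
  are far from each other they do not interact, so the unknotted polygons are a random walk on
  `ℤ × I`, where `I` is the finite set of pairs of heights, with a matrix of free blocks that has a
  Perron eigenvector at the critical weight `z`; the walk is killed where the strands meet. Its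
  Green's function has a singularity `√(z - w)`, and a transfer theorem gives
  `A μ ^ n n ^ (-3/2)`, `μ = 1 / z`. The same holds for all polygons.
* A polygon with at most `N` prime factors has at most `N` knotted blocks and caps. If the knotted
  blocks are far from the places where the strands meet then the knot type depends only on the
  words of these blocks. The generating function of the chains with `N` knotted blocks of given
  kinds has a singularity of order `(z - w) ^ (1/2 - N)`, with a constant that is a product of the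
  total weights of the kinds; long blocks, blocks near the meeting places and knotted caps are
  negligible. So `Z_n(K)` is asymptotically `A_K μ ^ n n ^ (N - 3/2)`.
* The constant `A_K` is positive: every knot type is realised by knotted blocks in every slab with
  `M ≥ 1`.
-/

set_option autoImplicit false

namespace Pool.Agent.Results.MP_aea6d5_co.SlabKnots

open Pool.Agent.LK Pool.Agent.KTube Pool.Agent.KTen Pool.Agent.KSlab Filter Topology

/-- The class of lattice polygons which have the same knot type as `K` with respect to the group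
`G` of homeomorphisms of space. -/
def OfType (G : Subgroup (R3 ≃ₜ R3)) (K E : Finset (Sym2 P3)) : Prop :=
  IsPolygon E ∧ ∃ φ ∈ G, φ '' body K = body E

/-- `K` has at most `N` prime factors. For `N = 0`: it is unknotted. For `N + 1`: whenever a
stacked join of a polygon `E` and a polygon `F` above it has the type of `K` (up to mirror images),
`E` is unknotted or `F` has at most `N` prime factors. By Schubert's theorem every `K` has this
property for some `N`, and the least such `N` is the number of its prime factors. -/
def AtMost : ℕ → Finset (Sym2 P3) → Prop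
  | 0, K => Unknotted K
  | N + 1, K => ∀ E F x y h, IsPolygon E → IsPolygon F → Below E F →
    s((x, y, h), (x + 1, y, h)) ∈ E → s((x, y, h + 1), (x + 1, y, h + 1)) ∈ F →
    SameType K (joinZ E F x y h) → Unknotted E ∨ AtMost N F

/-- `R` is a connected sum of `N` nontrivial knots: it is obtained from an unknotted polygon by `N`
successive side joins. For a side join of `R` with a knotted polygon `L`, take a plane
`z = k + 1/2` which meets `R` exactly in the two edges over the columns `a` and `b`, where `a` is
the left one (or the front one, if the first coordinates are equal), insert `h` straight levels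
there, where `L` has its vertices at the levels `1, …, h` and to the left of the origin, move `L`
to these levels, to the left of the column `a`, and join it to the strand over `a` by two horizontal
edges. -/
inductive SumOf : ℕ → Finset (Sym2 P3) → Prop
  | zero (R : Finset (Sym2 P3)) : IsPolygon R → Unknotted R → SumOf 0 R
  | succ (N : ℕ) (R L : Finset (Sym2 P3)) (h : ℕ) (z k : ℤ) (a b : ℤ × ℤ) : SumOf N R →
      LeftOf L h z → ¬ Unknotted L → cross R k = {a, b} → Lex a b → SumOf (N + 1) (insK L h z a R k)

/-- `K` has exactly `N` prime factors: at most `N`, and it has the type of a connected sum of `N`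
nontrivial knots. By Schubert's theorem this holds for exactly one `N`, for every `K`. -/
def Exactly (N : ℕ) (K : Finset (Sym2 P3)) : Prop :=
  AtMost N K ∧ ∃ R, SumOf N R ∧ SameType K R

/-- `a n` has the asymptotic form of Q1 with the exponent `α` and the growth rate `μ`, along even
`n`: `a n / (n ^ (α - 3) * μ ^ n)` converges to a positive constant. -/
def Q1Form (a : ℕ → ℝ) (α μ : ℝ) : Prop :=
  ∃ A : ℝ, 0 < A ∧ Tendsto (fun k : ℕ => a (2 * k) /
    (((2 * k : ℕ) : ℝ) ^ (α - 3) * μ ^ (2 * k))) atTop (𝓝 A)

theorem atMost_iff {N : ℕ} {K : Finset (Sym2 P3)} : AtMost N K ↔ Few N K := by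
  induction N generalizing K with
  | zero => exact Iff.rfl
  | succ N ih =>
    constructor
    · intro h E F x y k hE hF hEF h1 h2 h3
      exact (h E F x y k hE hF hEF h1 h2 h3).imp_right ih.1
    · intro h E F x y k hE hF hEF h1 h2 h3
      exact (h E F x y k hE hF hEF h1 h2 h3).imp_right ih.2

theorem sumOf_iff {N : ℕ} {R : Finset (Sym2 P3)} : SumOf N R ↔ Tower N R := by
  constructor
  · intro h
    induction h with
    | zero R h1 h2 => exact Tower.zero R h1 h2
    | succ N R L h z k a b _ h2 h3 h4 h5 ih => exact Tower.succ N R L h z k a b ih h2 h3 h4 h5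
  · intro h
    induction h with
    | zero R h1 h2 => exact SumOf.zero R h1 h2
    | succ N R L h z k a b _ h2 h3 h4 h5 ih => exact SumOf.succ N R L h z k a b ih h2 h3 h4 h5

theorem form_of {a : ℕ → ℝ} {p q μ A : ℝ} (hpq : q - 3 = p) (hA : 0 < A) (h : PForm a p μ A) :
    Q1Form a q μ := by
  refine ⟨A, hA, h.congr fun k => ?_⟩
  rw [hpq, mul_comm (μ ^ (2 * k))]

theorem div_form {a b : ℕ → ℝ} {N : ℕ} {μ μ' : ℝ} (hμ : 0 < μ) (hμ' : 0 < μ')
    (h : Q1Form a (N + 3 / 2) μ) (h' : Q1Form b (3 / 2) μ') : ∃ C : ℝ, 0 < C ∧
      Tendsto (fun k : ℕ => a (2 * k) / b (2 * k) /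
        (((2 * k : ℕ) : ℝ) ^ N * (μ / μ') ^ (2 * k))) atTop (𝓝 C) := by
  obtain ⟨A, hA, h⟩ := h
  obtain ⟨B, hB, h'⟩ := h'
  refine ⟨A / B, div_pos hA hB, (h.div h' hB.ne').congr' ?_⟩
  filter_upwards [h'.eventually_ne hB.ne', eventually_ge_atTop 1] with k hk hk1
  have h3 : (0 : ℝ) < ((2 * k : ℕ) : ℝ) := by exact_mod_cast (by omega : 0 < 2 * k)
  have h5 : b (2 * k) ≠ 0 := by
    intro h0
    apply hk
    rw [h0, zero_div]
  have h7 : 0 < μ ^ (2 * k) := pow_pos hμ _
  have h8 : 0 < μ' ^ (2 * k) := pow_pos hμ' _
  have h9 : ((2 * k : ℕ) : ℝ) ^ ((N : ℝ) + 3 / 2 - 3) =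
      ((2 * k : ℕ) : ℝ) ^ N * ((2 * k : ℕ) : ℝ) ^ ((3 / 2 : ℝ) - 3) := by
    rw [← Real.rpow_natCast, ← Real.rpow_add h3]
    congr 1
    ring
  have h10 : 0 < ((2 * k : ℕ) : ℝ) ^ ((3 / 2 : ℝ) - 3) := Real.rpow_pos_of_pos h3 _
  simp only [Pi.div_apply, div_pow]
  rw [h9]
  generalize ((2 * k : ℕ) : ℝ) ^ ((3 / 2 : ℝ) - 3) = R at *
  generalize ((2 * k : ℕ) : ℝ) = M at *
  generalize μ ^ (2 * k) = X at *
  generalize μ' ^ (2 * k) = Y at *
  field_simp

/-- **Stretched lattice knots in slabs.** Let `G` be a group of homeomorphisms of space that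
contains the translations and such that each homeomorphism `φ` lies in `G` or `φ ∘ negY` lies in
`G`, where `negY` is the reflection `(x, y, z) ↦ (x, -y, z)` (for example all homeomorphisms, or the
orientation preserving ones), and let `y ≥ 10 ^ 24`. For the slab `ℤ × {0, …, M} × ℤ`, `M ≥ 1`, write
`Z n` for the partition function of all polygons in the slab with `n` edges and `Z K n` for that of
the polygons of type `K`.

* There are `μ ≤ μ'` (which depend on `M` and `y`) such that, along even `n`, `Z n` is
  asymptotically equivalent to a positive constant times `n ^ (-3/2) μ' ^ n`, and for every `K` with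
  exactly `N` prime factors `Z K n` is asymptotically equivalent to a positive constant times
  `n ^ (N - 3/2) μ ^ n`, and the probability `Z K n / Z n` of the type `K` to a positive constant
  times `n ^ N (μ / μ') ^ n`. If there are knotted polygons then `μ < μ'`. So the form of Q1 holds in
  the slab with `μ_K = μ_∅ = μ`, `α_∅ = 3/2` and `α_K = α_∅ + N`.
* If `K` has at most `N` prime factors then `Z K n / (n ^ (N - 3/2) μ ^ n)` converges.
* The unknot has exactly `0` prime factors, the prime knots have exactly one, and every nontrivial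
  `K` is a connected sum of one nontrivial knot. -/
theorem result (G : Subgroup (R3 ≃ₜ R3)) (hG : ∀ t : R3, Homeomorph.addRight t ∈ G)
    (hG' : ∀ φ : R3 ≃ₜ R3, φ ∈ G ∨ φ * negY ∈ G) (y : ℝ) (hy : 10 ^ 24 ≤ y) :
    (∃ μ μ' : ℕ → ℝ, ∀ M ≥ 1, 0 < μ M ∧ μ M ≤ μ' M ∧
      Q1Form (ZS (fun _ => True) M y) (3 / 2) (μ' M) ∧
      (∀ (K : Finset (Sym2 P3)) (N : ℕ), IsPolygon K → Exactly N K →
        Q1Form (ZS (OfType G K) M y) (N + 3 / 2) (μ M) ∧
        ∃ C : ℝ, 0 < C ∧ Tendsto (fun k : ℕ => ZS (OfType G K) M y (2 * k) /
          ZS (fun _ => True) M y (2 * k) / (((2 * k : ℕ) : ℝ) ^ N * (μ M / μ' M) ^ (2 * k)))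
            atTop (𝓝 C)) ∧
      (∀ (K : Finset (Sym2 P3)) (N : ℕ), IsPolygon K → AtMost N K → ∃ A : ℝ, 0 ≤ A ∧
        Tendsto (fun k : ℕ => ZS (OfType G K) M y (2 * k) /
          (((2 * k : ℕ) : ℝ) ^ ((N : ℝ) - 3 / 2) * μ M ^ (2 * k))) atTop (𝓝 A)) ∧
      ((∃ K : Finset (Sym2 P3), IsPolygon K ∧ ¬ Unknotted K) → μ M < μ' M)) ∧
    ∀ K : Finset (Sym2 P3), IsPolygon K → (Unknotted K → Exactly 0 K) ∧
      (¬ Unknotted K → ∃ R, SumOf 1 R ∧ SameType K R) ∧ (PrimeKnot K → Exactly 1 K) := by
  have e : AtMost = Few := funext fun N => funext fun K => propext atMost_iff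
  have e' : SumOf = Tower := funext fun N => funext fun K => propext sumOf_iff
  unfold Exactly
  rw [e, e']
  refine ⟨?_, fun K hK =>
      ⟨fun hU => ⟨hU, K, Tower.zero K hK hU, SameType.refl K⟩, tower_one hK, fun hP => ?_⟩⟩
  · obtain ⟨μ, μ', h⟩ := slabs hG hG' hy
    refine ⟨μ, μ', fun M hM => ?_⟩
    obtain ⟨h1, h2, -, ⟨A', hA', h4⟩, h5, h6⟩ := h M
    have h7 : Q1Form (ZS (fun _ => True) M y) (3 / 2) (μ' M) := form_of (by norm_num) hA' h4
    refine ⟨h1, h2, h7, fun K N _ hE => ?_, fun K N _ hF => ?_, fun hne => ?_⟩
    · obtain ⟨hF, R, hR, hKR⟩ := hE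
      obtain ⟨A, -, h8, h9⟩ := h5 K N hF
      have h10 : Q1Form (ZS (OfType G K) M y) (N + 3 / 2) (μ M) :=
        form_of (by ring) (h9 (real_all hM hF hR hKR)) h8
      exact ⟨h10, div_form h1 (h1.trans_le h2) h10 h7⟩
    · obtain ⟨A, hA, h8, -⟩ := h5 K N hF
      refine ⟨A, hA, h8.congr fun k => ?_⟩
      rw [mul_comm (μ M ^ (2 * k))]
      rfl
    · obtain ⟨K, hK, nK⟩ := hne
      exact h6 (real_knot hM hK nK)
  · obtain ⟨hp, hU, hF⟩ := primeKnot_iff.1 hP
    exact ⟨hF, tower_one hp hU⟩

end Pool.Agent.Results.MP_aea6d5_co.SlabKnots
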