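import Pool.Agent.KTen.FinalT
import Pool.Agent.KLog.Final
import Pool.Agent.KCls.Final
import Pool.Agent.KComp.Final

/-!
Stretched lattice knots: the asymptotics of the partition function of every knot type.

Polygons of the simple cubic lattice `ℤ³` with `n` edges, up to translation, where a polygon has
the weight `y ^ span` and the span is its extension in the `z`-direction (polygons under a
stretching force). `Zt y (OfType G K) n` is the sum of the weights of the polygons of knot type `K`.
For `y = 1` it is the number `p n K` of Q1.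

Outline of the proof.
* A section (plane `z = k + 1/2`) with two edges cuts a polygon into two parts, whose closed
  polygons have the types of the summands. A polygon is a chain of blocks between consecutive
  sections with two edges, and two caps. Its state at such a section is the displacement of the two
  strands, a point of `ℤ² ∖ 0`. Far from the origin the blocks do not depend on the displacement, so
  the unknotted polygons are a random walk on `ℤ²` which is killed near the origin: the generating
  function has a singularity `1 / log` at the critical point, and its coefficients are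
  `A μ ^ n / (n (log n) ^ 2)` (an analytic solution of the renewal equation in the far and in the near
  region, and a transfer theorem). The same holds for all polygons.
* A polygon with at most `N` prime factors has at most `N` knotted blocks and caps. If the knotted
  blocks are far from the origin then the knot type depends only on the words of these blocks. The
  chains with `N` knotted blocks are compared with chains of unknotted blocks in which the `N`
  knotted blocks are replaced by paths of the second strand, chosen from many paths; this shows that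
  the long blocks, the blocks near the origin, knotted caps, and the chains with fewer knotted
  blocks are negligible. The number of the possible places is given by a law of large numbers for
  the chains of length `n` (exponentially small exceptional sets).
* Lower bound, and all statements for `y ≥ 4096`: see `KRing` and `KTen` (polygons of the types of
  the `N` summands are joined sideways to an unknotted polygon at `N` of its many sections with two
  edges; a knotted piece between two sections is replaced by an unknotted piece, a straight strand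
  beside a walk, with fewer edges).
-/

set_option autoImplicit false

namespace Pool.Agent.Results.MP_aea6d5_co.StretchedKnots

open Pool.Agent.LK Pool.Agent.KTube Pool.Agent.KTen Filter Topology

/-- The class of unknotted lattice polygons. -/
def Unknot (E : Finset (Sym2 P3)) : Prop := IsPolygon E ∧ Unknotted E

/-- The class of lattice polygons which have the same knot type as `K` with respect to the group
`G` of homeomorphisms of space. -/
def OfType (G : Subgroup (R3 ≃ₜ R3)) (K E : Finset (Sym2 P3)) : Prop :=
  IsPolygon E ∧ ∃ φ ∈ G, φ '' body K = body E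

/-- `K` has at most `N` prime factors. For `N = 0`: it is unknotted. For `N + 1`: whenever a
stacked join of a polygon `E` and a polygon `F` above it has the type of `K` (up to mirror images),
`E` is unknotted or `F` has at most `N` prime factors. By Schubert's theorem every `K` has this
property for some `N`, and the least such `N` is the number of its prime factors. -/
def AtMost : ℕ → Finset (Sym2 P3) → Prop
  | 0, K => Unknotted K
  | N + 1, K => ∀ E F x y h, IsPolygon E → IsPolygon F → Below E F →
    s((x, y, h), (x + 1, y, h)) ∈ E → s((x, y, h + 1), (x + 1, y, h + 1)) ∈ F →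
    SameType K (joinZ E F x y h) → Unknotted E ∨ AtMost N F

/-- `R` is a connected sum of `N` nontrivial knots: it is obtained from an unknotted polygon by `N`
successive side joins. For a side join of `R` with a knotted polygon `L`, take a plane
`z = k + 1/2` which meets `R` exactly in the two edges over the columns `a` and `b`, where `a` is
the left one (or the front one, if the first coordinates are equal), insert `h` straight levels
there, where `L` has its vertices at the levels `1, …, h` and to the left of the origin, move `L`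
to these levels, to the left of the column `a`, and join it to the strand over `a` by two horizontal
edges. -/
inductive SumOf : ℕ → Finset (Sym2 P3) → Prop
  | zero (R : Finset (Sym2 P3)) : IsPolygon R → Unknotted R → SumOf 0 R
  | succ (N : ℕ) (R L : Finset (Sym2 P3)) (h : ℕ) (z k : ℤ) (a b : ℤ × ℤ) : SumOf N R →
      LeftOf L h z → ¬ Unknotted L → cross R k = {a, b} → Lex a b → SumOf (N + 1) (insK L h z a R k)

/-- `K` has exactly `N` prime factors: at most `N`, and it has the type of a connected sum of `N`
nontrivial knots. By Schubert's theorem this holds for exactly one `N`, for every `K`. -/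
def Exactly (N : ℕ) (K : Finset (Sym2 P3)) : Prop :=
  AtMost N K ∧ ∃ R, SumOf N R ∧ SameType K R

/-- Along even `n`, `a n` is asymptotically equivalent to a positive constant times
`n ^ N * μ ^ n / (n * (log n) ^ 2)`. -/
def LogForm (a : ℕ → ℝ) (N : ℕ) (μ : ℝ) : Prop :=
  ∃ A : ℝ, 0 < A ∧ Tendsto (fun k : ℕ => a (2 * k) /
    (((2 * k : ℕ) : ℝ) ^ N * μ ^ (2 * k) /
      (((2 * k : ℕ) : ℝ) * Real.log ((2 * k : ℕ) : ℝ) ^ 2))) atTop (𝓝 A)

/-- `a n` has the asymptotic form of Q1, for some growth rate `ν`, along even `n`. -/
def PowerForm (a : ℕ → ℝ) : Prop :=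
  ∃ A α ν : ℝ, 0 < A ∧ 0 < ν ∧ Tendsto (fun k : ℕ => a (2 * k) /
    (((2 * k : ℕ) : ℝ) ^ (α - 3) * ν ^ (2 * k))) atTop (𝓝 A)

theorem atMost_iff {N : ℕ} {K : Finset (Sym2 P3)} : AtMost N K ↔ Few N K := by
  induction N generalizing K with
  | zero => exact Iff.rfl
  | succ N ih =>
    constructor
    · intro h E F x y k hE hF hEF h1 h2 h3
      exact (h E F x y k hE hF hEF h1 h2 h3).imp_right ih.1
    · intro h E F x y k hE hF hEF h1 h2 h3
      exact (h E F x y k hE hF hEF h1 h2 h3).imp_right ih.2

theorem sumOf_iff {N : ℕ} {R : Finset (Sym2 P3)} : SumOf N R ↔ Tower N R := by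
  constructor
  · intro h
    induction h with
    | zero R h1 h2 => exact Tower.zero R h1 h2
    | succ N R L h z k a b _ h2 h3 h4 h5 ih => exact Tower.succ N R L h z k a b ih h2 h3 h4 h5
  · intro h
    induction h with
    | zero R h1 h2 => exact SumOf.zero R h1 h2
    | succ N R L h z k a b _ h2 h3 h4 h5 ih => exact SumOf.succ N R L h z k a b ih h2 h3 h4 h5

theorem zt_unknot (y : ℝ) (n : ℕ) : Zt y Unknotted n = Zt y UClass n := by
  unfold Zt
  have h : NSet Unknotted n = NSet UClass n := by
    ext E
    exact ⟨fun h => ⟨h.1, ⟨h.1, h.2.1⟩, h.2.2⟩, fun h => ⟨h.1, h.2.1.2, h.2.2⟩⟩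
  rw [h]

/-- The quotient of two sequences with a logarithmic form. -/
theorem LogForm.div {a b : ℕ → ℝ} {N : ℕ} {μ μ' : ℝ} (hμ : 0 < μ) (hμ' : 0 < μ')
    (h : LogForm a N μ) (h' : LogForm b 0 μ') : ∃ C : ℝ, 0 < C ∧
      Tendsto (fun k : ℕ => a (2 * k) / b (2 * k) /
        (((2 * k : ℕ) : ℝ) ^ N * (μ / μ') ^ (2 * k))) atTop (𝓝 C) := by
  obtain ⟨A, hA, h⟩ := h
  obtain ⟨B, hB, h'⟩ := h'
  refine ⟨A / B, div_pos hA hB, (h.div h' hB.ne').congr' ?_⟩
  filter_upwards [h'.eventually_ne hB.ne', eventually_ge_atTop 1] with k hk hk1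
  have h3 : (2 : ℝ) ≤ ((2 * k : ℕ) : ℝ) := by exact_mod_cast (by omega : 2 ≤ 2 * k)
  have h4 : 0 < Real.log ((2 * k : ℕ) : ℝ) := Real.log_pos (by linarith)
  have h5 : b (2 * k) ≠ 0 := by
    intro h0
    apply hk
    rw [h0, zero_div]
  have h6 : (0 : ℝ) < ((2 * k : ℕ) : ℝ) := by linarith
  have h7 : 0 < μ ^ (2 * k) := pow_pos hμ _
  have h8 : 0 < μ' ^ (2 * k) := pow_pos hμ' _
  simp only [Pi.div_apply, div_pow, pow_zero, one_mul]
  generalize Real.log ((2 * k : ℕ) : ℝ) = L at *
  generalize ((2 * k : ℕ) : ℝ) = M at *
  generalize μ ^ (2 * k) = X at *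
  generalize μ' ^ (2 * k) = Y at *
  field_simp

/-- **Stretched lattice knots.** Let `G` be a group of homeomorphisms of space that contains the
translations and such that each homeomorphism `φ` lies in `G` or `φ ∘ negY` lies in `G`, where
`negY` is the reflection `(x, y, z) ↦ (x, -y, z)` (for example all homeomorphisms, or the
orientation preserving ones), and let `y ≥ 4096`. Write `Z n` for the partition function of all
polygons with `n` edges, `U n` for that of the unknotted ones, and `Z K n` for that of the polygons
of type `K`.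

* There is `μ > 0` such that `U n ^ (1 / n) → μ`, and `Z K n ^ (1 / n) → μ` for every knot type `K`
  with at most `N` prime factors for some `N`, along even `n`. For every `N` there is `D` with
  `Z K n ≤ D * n ^ N * U n` for every `K` with at most `N` prime factors, and even for all such
  polygons together, and for every `K` that is a connected sum of `N` nontrivial knots there is
  `δ > 0` with `δ * n ^ N * U n ≤ Z K n` for large `n`. So if `K` has exactly `N` prime factors then
  `Z K n / U n` is between two positive multiples of `n ^ N`.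
* If `y ≥ 10 ^ 8` and `K` has exactly `N` prime factors for some `N` then `Z K n` does not have the
  asymptotic form of Q1.
* If `y ≥ 10 ^ 24` then there are `μ, μ' > 0` such that, along even `n`, for every `K` with exactly
  `N` prime factors `Z K n` is asymptotically equivalent to a positive constant times
  `n ^ (N - 1) * μ ^ n / (log n) ^ 2`, `Z n` to a positive constant times
  `n ^ (-1) * μ' ^ n / (log n) ^ 2`, and the probability `Z K n / Z n` of the type `K` to a positive
  constant times `n ^ N * (μ / μ') ^ n`. If there are knotted polygons then `μ < μ'`.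
* The unknot has exactly `0` prime factors, the prime knots have exactly one, and every nontrivial
  `K` is a connected sum of one nontrivial knot. -/
theorem result (G : Subgroup (R3 ≃ₜ R3)) (hG : ∀ t : R3, Homeomorph.addRight t ∈ G)
    (hG' : ∀ φ : R3 ≃ₜ R3, φ ∈ G ∨ φ * negY ∈ G) (y : ℝ) (hy : 4096 ≤ y) :
    ((∀ k ≥ 2, 0 < Zt y Unknot (2 * k)) ∧
      (∃ μ : ℝ, 0 < μ ∧
        Tendsto (fun k : ℕ => Zt y Unknot (2 * k) ^ (((2 * k : ℕ) : ℝ)⁻¹)) atTop (𝓝 μ) ∧
        ∀ (K : Finset (Sym2 P3)) (N : ℕ), IsPolygon K → AtMost N K →
          Tendsto (fun k : ℕ => Zt y (OfType G K) (2 * k) ^ (((2 * k : ℕ) : ℝ)⁻¹)) atTop (𝓝 μ)) ∧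
      (∀ N : ℕ, ∃ D : ℝ, ∀ n, Zt y (AtMost N) n ≤ D * (n : ℝ) ^ N * Zt y Unknot n ∧
        ∀ K : Finset (Sym2 P3), IsPolygon K → AtMost N K →
          Zt y (OfType G K) n ≤ D * (n : ℝ) ^ N * Zt y Unknot n) ∧
      ∀ (K R : Finset (Sym2 P3)) (N : ℕ), IsPolygon K → SumOf N R → SameType K R →
        ∃ δ : ℝ, 0 < δ ∧ ∃ n0 : ℕ, ∀ n ≥ n0,
          δ * (n : ℝ) ^ N * Zt y Unknot n ≤ Zt y (OfType G K) n) ∧
    (10 ^ 8 ≤ y → ∀ (K : Finset (Sym2 P3)) (N : ℕ), IsPolygon K → Exactly N K →
      ¬ PowerForm (Zt y (OfType G K))) ∧
    (10 ^ 24 ≤ y → ∃ μ μ' : ℝ, 0 < μ ∧ 0 < μ' ∧ LogForm (Zt y fun _ => True) 0 μ' ∧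
      (∀ (K : Finset (Sym2 P3)) (N : ℕ), IsPolygon K → Exactly N K →
        LogForm (Zt y (OfType G K)) N μ ∧
        ∃ C : ℝ, 0 < C ∧ Tendsto (fun k : ℕ => Zt y (OfType G K) (2 * k) /
          Zt y (fun _ => True) (2 * k) / (((2 * k : ℕ) : ℝ) ^ N * (μ / μ') ^ (2 * k)))
            atTop (𝓝 C)) ∧
      ((∃ K : Finset (Sym2 P3), IsPolygon K ∧ ¬ Unknotted K) → μ < μ')) ∧
    ∀ K : Finset (Sym2 P3), IsPolygon K → (Unknotted K → Exactly 0 K) ∧
      (¬ Unknotted K → ∃ R, SumOf 1 R ∧ SameType K R) ∧ (PrimeKnot K → Exactly 1 K) := by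
  have e : AtMost = Few := funext fun N => funext fun K => propext atMost_iff
  have e' : SumOf = Tower := funext fun N => funext fun K => propext sumOf_iff
  unfold Exactly
  rw [e, e']
  obtain ⟨⟨μ, hμ, h1, h2⟩, h3, h4, -⟩ := main_group hG hG' hy
  have hy0 : (0 : ℝ) ≤ y := le_trans (by norm_num) hy
  have hup : ∀ (N : ℕ) (D : ℝ), (∀ n, Zt y (Few N) n ≤ D * (n : ℝ) ^ N * Zt y UClass n) →
      ∀ n (K : Finset (Sym2 P3)), Few N K →
        Zt y (OfType G K) n ≤ D * (n : ℝ) ^ N * Zt y UClass n := fun N D hD n K hF =>
    (g_le_zt hy0 K n).trans ((zt_mono hy0 (fun E _ hE => hinv_few N K E hE.2 hF) _).trans (hD n))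
  refine ⟨⟨h3, ⟨μ, hμ, h1, h2⟩, fun N => ?_, fun K R N _ hR hK => tower_group hG hG' hy hR hK⟩,
    fun hy8 K N hK hE => ?_, fun hy24 => ?_, fun K hK =>
      ⟨fun hU => ⟨hU, K, Tower.zero K hK hU, SameType.refl K⟩, tower_one hK, fun hP => ?_⟩⟩
  · obtain ⟨D, hD⟩ := h4 N
    exact ⟨D, fun n => ⟨hD n, fun K _ hF => hup N D hD n K hF⟩⟩
  · obtain ⟨hF, R, hR, hKR⟩ := hE
    obtain ⟨z, hz, s1, s2⟩ := KLog.main_sums hy8
    obtain ⟨δ, hδ, n0, h⟩ := tower_group hG hG' hy hR hKR
    obtain ⟨D, hD⟩ := h4 N
    refine KLog.no_form (U := fun n => Zt y Unknot n) (Z := fun n => Zt y (OfType G K) n) (c := δ)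
      (C := D) (N := N) (n0 := n0) hz (fun n => zt_nonneg hy0 _ n) (fun n hn => u_odd hn _ _) s1 ?_
      hδ h fun n _ => hup N D hD n K hF
    simp only [mul_assoc]
    exact s2
  · obtain ⟨ν, hν, ⟨A, hA, h5⟩, h6⟩ := KComp.main hG hG' hy24
    obtain ⟨ν', hν', A', hA', h7⟩ := KCls.main KCls.cls_all hy24
    have h8 : LogForm (Zt y fun _ => True) 0 ν' := by
      refine ⟨A', hA', ?_⟩
      simp only [pow_zero, one_mul]
      exact h7
    refine ⟨ν, ν', hν, hν', h8, fun K N _ hE => ?_, fun hne => ?_⟩
    · obtain ⟨hF, R, hR, hKR⟩ := hE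
      have h9 : LogForm (Zt y (OfType G K)) N ν := h6 K R N hF hR hKR
      exact ⟨h9, h9.div hν hν' h8⟩
    · obtain ⟨K, hK, nK⟩ := hne
      have h9 : KCls.Form y Unknotted ν A := by
        unfold KCls.Form
        simp only [zt_unknot]
        exact h5
      exact KCls.main_lt KCls.cls_unknotted KCls.cls_all (fun _ _ _ => trivial)
        ⟨K, hK, trivial, nK⟩ hy24 hν hν' hA hA' h9 h7
  · obtain ⟨hp, hU, hF⟩ := primeKnot_iff.1 hP
    exact ⟨hF, tower_one hp hU⟩

end Pool.Agent.Results.MP_aea6d5_co.StretchedKnots
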