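import Pool.Agent.KTube.TubeAll

/-!
The asymptotic form of the number of lattice knots in tubes, for every knot type.

Lattice polygons in the tube `[0, L] × [0, M] × ℤ`, up to translations along the tube, with `n`
edges and weight `y ^ span`; `Z n K` is the sum of the weights of those of knot type `K` (their
number, if `y = 1`). For the tubes and the forces in the theorem (all tubes with two adjacent
columns if `y ≥ 58`, all tubes in which nontrivial knots can occur if `y ≥ 29`, and the tubes
`2 × 1`, `3 × 1`, `2 × 2` for every `y ≥ 1`, in particular without any force) there is `μ > 0` such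
that for every knot type `K` that occurs in the tube there is a polynomial `P` with positive leading
coefficient and `Z n K / μ ^ n = P n + O(θ ^ n)` along even `n`, `θ < 1`. The degree of `P` is the
greatest number of knotted parts of the polygons of type `K` in the tube (`0` for the unknot, `1`
for prime knots).

Outline of the proof.
* Sections. A plane which cuts the polygon in exactly the two edges over the reference columns
  `(0,0)`, `(1,0)` cuts it into two closed parts; the polygon is their connected sum. For the
  unknot all parts are unknotted (knots do not cancel).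
* Gap. Polygons with few planes that cut them in exactly two edges have a smaller growth rate than
  the unknotted polygons: word bounds, and transfer matrices with rational certificates for the
  small tubes.
* Detours. At a section with two edges both strands can walk to the reference columns and back,
  without changing the type. A multivalued map argument then shows that all parts without inner
  reference sections of the polygons of type `K` together have a growth rate smaller than that of
  the unknotted polygons.
* Middle lemma. An unknotted middle part may be replaced by any other unknotted middle part that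
  connects the two strands in the same way (parallel or crossed), without changing the type: the
  part below is shrunk and slid along one strand through the middle part, by explicit
  homeomorphisms.
* Renewal. The unknotted middle parts, parallel or crossed, are counted by two renewal sequences
  with exponentially small defects; `Z n K` is a finite sum of convolutions of these with sequences
  of smaller growth rate.
-/

set_option autoImplicit false

namespace Pool.Agent.Results.MP_aea6d5_co.TubesAllTypes

open Pool.Agent.LK Pool.Agent.KTube Polynomial

/-- The class of lattice polygons which have the same knot type as `K` with respect to the group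
`G` of homeomorphisms of space. -/
def OfType (G : Subgroup (R3 ≃ₜ R3)) (K E : Finset (Sym2 P3)) : Prop :=
  IsPolygon E ∧ ∃ φ ∈ G, φ '' body K = body E

/-- `E` is a lattice polygon of the type of `K` up to mirror images. -/
def OfTypeM (K E : Finset (Sym2 P3)) : Prop := IsPolygon E ∧ ∃ φ : R3 ≃ₜ R3, φ '' body K = body E

/-- `E` has at least `n` knotted parts: `n = 0`, or `n = 1` and `E` is knotted, or `E` is cut by a
plane `z = k + 1/2` which meets it exactly over the columns `(0,0)`, `(1,0)` into a closed lower
part that is knotted and a closed upper part with at least `n - 1 ≥ 1` knotted parts. -/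
inductive Parts : ℕ → Finset (Sym2 P3) → Prop
  | zero (E : Finset (Sym2 P3)) : Parts 0 E
  | one (E : Finset (Sym2 P3)) : ¬ Unknotted E → Parts 1 E
  | succ (n : ℕ) (A B : Finset (Sym2 P3)) (k : ℤ) : IsLow A k → IsUpp B k → ¬ Unknotted A →
      Parts (n + 1) B → Parts (n + 2) (glue A B k)

theorem parts_iff {n : ℕ} {E : Finset (Sym2 P3)} : Parts n E ↔ KLen n E := by
  constructor
  · intro h
    induction h with
    | zero E => exact KLen.zero E
    | one E h => exact KLen.one E h
    | succ n A B k h1 h2 h3 _ ih => exact KLen.succ n A B k h1 h2 h3 ih
  · intro h
    induction h with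
    | zero E => exact Parts.zero E
    | one E h => exact Parts.one E h
    | succ n A B k h1 h2 h3 _ ih => exact Parts.succ n A B k h1 h2 h3 ih

/-- The number of knotted parts of the polygons of the type of `K` is bounded. This is true for
every `K`, by Schubert's theorem, and it is proved below for the unknot and for prime knots. -/
def FinitelyManyParts (K : Finset (Sym2 P3)) : Prop := ∃ m : ℕ, ∀ E, OfTypeM K E → ¬ Parts m E

/-- The numbers `n` such that some polygon of the tube, of the type of `K` up to mirror images,
has at least `n` knotted parts. -/
def partNumbers (L M : ℕ) (K : Finset (Sym2 P3)) : Set ℕ :=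
  {n | ∃ E, OfTypeM K E ∧ InTube L M E ∧ Parts n E}

/-- Let `G` be a group of homeomorphisms of space that contains the translations and such that
each homeomorphism `φ` lies in `G` or `φ ∘ negY` lies in `G`, where `negY` is the reflection
`(x, y, z) ↦ (x, -y, z)` (for example all homeomorphisms, or the orientation preserving ones). Let
the tube `[0, L] × [0, M] × ℤ` and the weight `y` be such that `y ≥ 58` and `L ≥ 1`, or `y ≥ 29`,
`L ≥ 2` and `M ≥ 1`, or `y ≥ 23`, `L ≥ 2` and `M ≥ 2`, or `y ≥ 1` and the tube is `2 × 1`, `3 × 1`
or `2 × 2`. Then there is `μ > 0` such that for every knot type `K` which occurs in the tube (up to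
mirror images) and has finitely many parts there are `N` and a polynomial `P` of degree `N` with
positive leading coefficient such that

* the partition function of the polygons with `n = 2 k` edges in the tube of the type of `K`,
  divided by `μ ^ n`, is `P n + O(θ ^ k)` with `θ < 1`;
* `N` is the greatest number of knotted parts of the polygons of the type of `K` in the tube;
* `N = 0` if `K` is unknotted, `N ≥ 1` if `K` is knotted, `N = 1` if `K` is prime.

The unknot and the prime knots have finitely many parts. -/
theorem result (G : Subgroup (R3 ≃ₜ R3)) (hG : ∀ t : R3, Homeomorph.addRight t ∈ G)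
    (hG' : ∀ φ : R3 ≃ₜ R3, φ ∈ G ∨ φ * negY ∈ G) (L M : ℕ) (y : ℝ)
    (h : (58 ≤ y ∧ 1 ≤ L) ∨ (29 ≤ y ∧ 2 ≤ L ∧ 1 ≤ M) ∨ (23 ≤ y ∧ 2 ≤ L ∧ 2 ≤ M) ∨
      (1 ≤ y ∧ ((L = 2 ∧ M = 1) ∨ (L = 3 ∧ M = 1) ∨ (L = 2 ∧ M = 2)))) :
    (∃ μ : ℝ, 0 < μ ∧ ∀ K : Finset (Sym2 P3), (∃ E, OfTypeM K E ∧ InTube L M E) →
      FinitelyManyParts K → ∃ (N : ℕ) (P : ℝ[X]),
        (P.natDegree = N ∧ 0 < P.leadingCoeff ∧ ∃ C θ : ℝ, 0 < θ ∧ θ < 1 ∧
          ∀ k : ℕ, |Z L M y (OfType G K) (2 * k) / μ ^ (2 * k) - P.eval ((2 * k : ℕ) : ℝ)| ≤
            C * θ ^ k) ∧
        IsGreatest (partNumbers L M K) N ∧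
        (Unknotted K → N = 0) ∧ (¬ Unknotted K → 1 ≤ N) ∧ (PrimeKnot K → N = 1)) ∧
    ∀ K : Finset (Sym2 P3), Unknotted K ∨ PrimeKnot K → FinitelyManyParts K := by
  refine ⟨?_, ?_⟩
  · obtain ⟨μ, hμ, hK⟩ := tube_all_group G hG hG' (L := L) (M := M) h
    refine ⟨μ, hμ, fun K hE hF => ?_⟩
    obtain ⟨N, P, h1, h2, h3, C, θ, -, h4, h5, h6⟩ := hK K hE (by
      obtain ⟨m, hm⟩ := hF
      exact ⟨m, fun E hE hk => hm E hE (parts_iff.2 hk)⟩)
    have h7 : IsGreatest (partNumbers L M K) N := by
      have e : partNumbers L M K = partNums L M K := by
        ext n
        unfold partNumbers partNums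
        simp only [Set.mem_ofPred_eq, parts_iff]
        rfl
      rwa [e]
    exact ⟨N, P, ⟨h2, h3, C, θ, h4, h5, h6⟩, h7, fun hU => partNums_unknot hU h1,
      fun hU => partNums_knot hU h1, fun hP => partNums_prime hP h1⟩
  · rintro K (hK | hK)
    · exact ⟨1, fun E hE hk => bounded_unknot hK E hE (parts_iff.1 hk)⟩
    · exact ⟨2, fun E hE hk => bounded_prime hK E hE (parts_iff.1 hk)⟩

end Pool.Agent.Results.MP_aea6d5_co.TubesAllTypes
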